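import Pool.Agent.Y671.GL.Spec4
import Pool.Agent.Y671.LD.CirAux
import Pool.Agent.Y22.LM2

set_option autoImplicit false

/-! Sums of two translates of a function with zeros in a strip: the discs which contain the zeros off the axis. -/

namespace Pool.Agent.X244.TR

open Complex Filter Topology Metric Polynomial
open scoped ComplexConjugate
open Pool.Agent.Y671.GL (AppX)
open Pool.Agent.Y22.LM (q norm_pair)

noncomputable section

lemma q_le {β d h a : ℝ} (hh : 0 ≤ h) (ha : 0 ≤ a) (hb : β ^ 2 ≤ h ^ 2 + a ^ 2 + d ^ 2) :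
    q β d (h - a) ≤ q β d (h + a) := by
  have h1 : q β d (h + a) - q β d (h - a) = 8 * h * a * (h ^ 2 + a ^ 2 + d ^ 2 - β ^ 2) := by
    unfold q; ring
  have h2 : 0 ≤ 8 * h * a * (h ^ 2 + a ^ 2 + d ^ 2 - β ^ 2) :=
    mul_nonneg (by positivity) (by linarith)
  linarith

lemma pair_sq (p : ℂ[X]) (v t : ℝ) :
    (‖p.eval (v + t * I : ℂ)‖ * ‖p.eval (-v + t * I : ℂ)‖) ^ 2 =
      ‖p.leadingCoeff‖ ^ 4 * (p.roots.map fun b => q b.re (t - b.im) v).prod := by
  have h1 : ∀ z : ℂ, ‖p.eval z‖ = ‖p.leadingCoeff‖ * (p.roots.map fun b => ‖z - b‖).prod := by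
    intro z
    rw [(IsAlgClosed.splits p).eval_eq_prod_roots, norm_mul]
    congr 1
    have e := map_multiset_prod (normHom (α := ℂ)) (p.roots.map fun x => z - x)
    rw [Multiset.map_map] at e
    exact e
  rw [h1, h1, mul_pow, mul_pow, mul_pow]
  have h3 : (p.roots.map fun b => q b.re (t - b.im) v).prod =
      (p.roots.map fun b => ‖(v + t * I : ℂ) - b‖).prod ^ 2 * (p.roots.map fun b => ‖(-v + t * I : ℂ) - b‖).prod ^ 2 := by
    rw [← Multiset.prod_map_pow, ← Multiset.prod_map_pow, ← Multiset.prod_map_mul]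
    refine congrArg _ (Multiset.map_congr rfl fun b _ => (norm_pair b v t).symm)
  rw [h3]
  ring

lemma eval_ineq {p : ℂ[X]} {h a t : ℝ} (hh : 0 ≤ h) (ha : 0 ≤ a)
    (hr : ∀ b, p.eval b = 0 → b.re ^ 2 ≤ h ^ 2 + a ^ 2 + (t - b.im) ^ 2) :
    ‖p.eval (((h - a : ℝ) : ℂ) + t * I)‖ * ‖p.eval (-((h - a : ℝ) : ℂ) + t * I)‖ ≤
      ‖p.eval (((h + a : ℝ) : ℂ) + t * I)‖ * ‖p.eval (-((h + a : ℝ) : ℂ) + t * I)‖ := by
  refine le_of_sq_le_sq ?_ (by positivity)
  rw [pair_sq, pair_sq]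
  refine mul_le_mul_of_nonneg_left ?_ (by positivity)
  refine Multiset.prod_map_le_prod_map₀ _ _ (fun b _ => ?_) (fun b hb => ?_)
  · unfold q; positivity
  · exact q_le hh ha (hr b (Polynomial.isRoot_of_mem_roots hb))

variable {X : ℂ → ℂ}

lemma norm_symm (hs : ∀ z : ℂ, X (-(conj z)) = conj (X z)) (v t : ℝ) :
    ‖X (-(v : ℂ) + t * I)‖ = ‖X ((v : ℂ) + t * I)‖ := by
  have h : (-(v : ℂ) + t * I) = -(conj ((v : ℂ) + t * I)) := by
    rw [map_add, map_mul, Complex.conj_ofReal, Complex.conj_ofReal, Complex.conj_I]; ring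
  rw [h, hs, Complex.norm_conj]

theorem lim_ineq (hc : Continuous X) (hs : ∀ z : ℂ, X (-(conj z)) = conj (X z)) (happ : AppX X) {h a t : ℝ}
    (hh : 0 ≤ h) (ha : 0 ≤ a)
    (hg : ∀ b : ℂ, |b.re| ≤ 1 / 2 → h ^ 2 + a ^ 2 + (t - b.im) ^ 2 ≤ b.re ^ 2 → X b ≠ 0) :
    ‖X (((h - a : ℝ) : ℂ) + t * I)‖ ≤ ‖X (((h + a : ℝ) : ℂ) + t * I)‖ := by
  obtain ⟨Q, hQ, hlim⟩ := happ
  set S : Set ℂ := {b : ℂ | |b.re| ≤ 1 / 2 ∧ h ^ 2 + a ^ 2 + (t - b.im) ^ 2 ≤ b.re ^ 2} with hS
  have hSc : IsCompact S := by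
    apply (isCompact_closedBall (t * I : ℂ) 1).of_isClosed_subset
    · have c1 : Continuous fun z : ℂ => |z.re| := by fun_prop
      have c2 : Continuous fun z : ℂ => h ^ 2 + a ^ 2 + (t - z.im) ^ 2 := by fun_prop
      have c3 : Continuous fun z : ℂ => z.re ^ 2 := by fun_prop
      exact (isClosed_le c1 continuous_const).inter (isClosed_le c2 c3)
    · intro z hz
      obtain ⟨hz1, hz2⟩ := hz
      have hz1' := abs_le.1 hz1
      have hre2 : z.re ^ 2 ≤ 1 / 4 := by nlinarith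
      have himb : |t - z.im| ≤ 1 / 2 := abs_le_of_sq_le_sq (by nlinarith [sq_nonneg h, sq_nonneg a]) (by norm_num)
      rw [Metric.mem_closedBall, dist_eq_norm]
      calc ‖z - t * I‖ ≤ |(z - t * I : ℂ).re| + |(z - t * I : ℂ).im| := Complex.norm_le_abs_re_add_abs_im _
        _ ≤ 1 / 2 + 1 / 2 := by
            apply add_le_add
            · simpa using hz1
            · simp only [sub_im, mul_im, ofReal_re, I_im, mul_one, ofReal_im, I_re, mul_zero, add_zero]
              rw [abs_sub_comm]; exact himb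
        _ = 1 := by norm_num
  have hSev : ∀ᶠ N in atTop, ∀ z ∈ S, (Q N).eval z ≠ 0 := by
    rcases S.eq_empty_or_nonempty with h0 | h0
    · exact Eventually.of_forall fun N z hz => by rw [h0] at hz; exact absurd hz (Set.notMem_empty z)
    · obtain ⟨z0, hz0, hmin⟩ := hSc.exists_isMinOn h0 (hc.norm.continuousOn)
      have hm : 0 < ‖X z0‖ := norm_pos_iff.2 (hg z0 hz0.1 hz0.2)
      have hunif : TendstoUniformlyOn (fun (N : ℕ) (z : ℂ) => (Q N).eval z) X atTop S :=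
        (tendstoLocallyUniformlyOn_iff_forall_isCompact isOpen_univ).1
          (hlim.tendstoLocallyUniformlyOn) _ (Set.subset_univ _) hSc
      filter_upwards [(Metric.tendstoUniformlyOn_iff.1 hunif) ‖X z0‖ hm] with N hN z hz h1
      have h2 := hN z hz
      rw [h1, dist_zero_right] at h2
      exact absurd h2 (not_lt.2 (hmin hz))
  have hpt : ∀ z : ℂ, Tendsto (fun N => ‖(Q N).eval z‖) atTop (𝓝 ‖X z‖) := fun z =>
    ((tendstoLocallyUniformlyOn_univ.mpr hlim).tendsto_at (Set.mem_univ z)).norm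
  have hle := le_of_tendsto_of_tendsto ((hpt _).mul (hpt _)) ((hpt _).mul (hpt _)) (hSev.mono fun N hN =>
    eval_ineq (p := Q N) (t := t) hh ha fun b hb => by
      by_contra hcon
      push Not at hcon
      exact hN b ⟨hQ N b hb, hcon.le⟩ hb)
  rw [norm_symm hs, norm_symm hs] at hle
  exact le_of_sq_le_sq (by rw [sq, sq]; exact hle) (norm_nonneg _)

/-- no zero of `X` disturbs at `w` -/
def Good (X : ℂ → ℂ) (a : ℝ) (w : ℂ) : Prop :=
  ∀ b : ℂ, |b.re| ≤ 1 / 2 → w.re ^ 2 + a ^ 2 + (w.im - b.im) ^ 2 ≤ b.re ^ 2 → X b ≠ 0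

lemma good_open (hc : Continuous X) {a : ℝ} {w : ℂ} (hg : Good X a w) : ∀ᶠ w' in 𝓝 w, Good X a w' := by
  set K : Set (ℂ × ℂ) := {x | dist x.1 w ≤ 1 ∧ |x.2.re| ≤ 1 / 2 ∧
    x.1.re ^ 2 + a ^ 2 + (x.1.im - x.2.im) ^ 2 ≤ x.2.re ^ 2 ∧ X x.2 = 0} with hK
  have hKc : IsCompact K := by
    apply ((isCompact_closedBall w 1).prod (isCompact_closedBall w 3)).of_isClosed_subset
    · have e : K = {x : ℂ × ℂ | dist x.1 w ≤ 1} ∩ ({x | |x.2.re| ≤ 1 / 2} ∩
          ({x | x.1.re ^ 2 + a ^ 2 + (x.1.im - x.2.im) ^ 2 ≤ x.2.re ^ 2} ∩ {x | X x.2 = 0})) := by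
        ext x; simp [hK]
      rw [e]
      refine (isClosed_le (by fun_prop) continuous_const).inter ((isClosed_le (by fun_prop) continuous_const).inter
        ((isClosed_le (by fun_prop) (by fun_prop)).inter (isClosed_eq (hc.comp continuous_snd) continuous_const)))
    · rintro ⟨u, b⟩ ⟨h1, h2, h3, -⟩
      simp only at h1 h2 h3
      refine ⟨h1, ?_⟩
      have hz1' := abs_le.1 h2
      have hre2 : b.re ^ 2 ≤ 1 / 4 := by nlinarith
      have h4 : |u.re| ≤ 1 / 2 := abs_le_of_sq_le_sq (by nlinarith [sq_nonneg a, sq_nonneg (u.im - b.im)]) (by norm_num)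
      have h5 : |u.im - b.im| ≤ 1 / 2 := abs_le_of_sq_le_sq (by nlinarith [sq_nonneg a, sq_nonneg u.re]) (by norm_num)
      rw [Metric.mem_closedBall]
      have h6 : dist b u ≤ 3 / 2 := by
        rw [dist_eq_norm]
        calc ‖b - u‖ ≤ |(b - u).re| + |(b - u).im| := Complex.norm_le_abs_re_add_abs_im _
          _ ≤ 1 + 1 / 2 := by
            apply add_le_add
            · rw [Complex.sub_re]
              exact (abs_sub _ _).trans (by linarith)
            · rw [Complex.sub_im, abs_sub_comm]; exact h5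
          _ = 3 / 2 := by norm_num
      have := dist_triangle b u w
      linarith
  have hKf : IsClosed (Prod.fst '' K) := (hKc.image continuous_fst).isClosed
  have hw : w ∉ Prod.fst '' K := by
    rintro ⟨⟨u, b⟩, ⟨-, h2, h3, h4⟩, rfl⟩
    exact hg b h2 h3 h4
  filter_upwards [hKf.isOpen_compl.mem_nhds hw, Metric.closedBall_mem_nhds w one_pos] with w' h1 h2
  intro b hb1 hb2 hb3
  exact h1 ⟨(w', b), ⟨h2, hb1, hb2, hb3⟩, rfl⟩

lemma good_ne (hst : ∀ s : ℂ, X s = 0 → |s.re| ≤ 1 / 2) {a : ℝ} {w : ℂ} (ha : 0 ≤ a) (hw : 0 ≤ w.re)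
    (hg : Good X a w) : X (w + a) ≠ 0 := by
  intro h0
  refine hg (w + a) (hst _ h0) ?_ h0
  simp only [add_re, ofReal_re, add_im, ofReal_im, add_zero, sub_self]
  nlinarith [mul_nonneg hw ha]

lemma split (w : ℂ) (a : ℝ) : w - a = (((w.re - a : ℝ) : ℂ) + w.im * I) ∧ w + a = (((w.re + a : ℝ) : ℂ) + w.im * I) := by
  constructor <;> · apply Complex.ext <;> simp

theorem good_le (hc : Continuous X) (hs : ∀ z : ℂ, X (-(conj z)) = conj (X z)) (happ : AppX X) {a : ℝ} {w : ℂ}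
    (ha : 0 ≤ a) (hw : 0 ≤ w.re) (hg : Good X a w) : ‖X (w - a)‖ ≤ ‖X (w + a)‖ := by
  rw [(split w a).1, (split w a).2]
  exact lim_ineq hc hs happ hw ha hg

/-- `X` is not quasi-periodic -/
def NoPer (X : ℂ → ℂ) (a : ℝ) : Prop := ∀ c : ℂ, ‖c‖ = 1 → ¬ ∀ z, X (z - a) = c * X (z + a)

theorem good_lt (hd : Differentiable ℂ X) (hs : ∀ z : ℂ, X (-(conj z)) = conj (X z)) (happ : AppX X)
    (hst : ∀ s : ℂ, X s = 0 → |s.re| ≤ 1 / 2) {a : ℝ} (hper : NoPer X a) {w : ℂ}
    (ha : 0 < a) (hw : 0 < w.re) (hg : Good X a w) : ‖X (w - a)‖ < ‖X (w + a)‖ := by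
  refine lt_of_le_of_ne (good_le hd.continuous hs happ ha.le hw.le hg) fun heq => ?_
  have hne := good_ne hst ha.le hw.le hg
  have hev : ∀ᶠ z in 𝓝 w, X (z + a) ≠ 0 :=
    (hd.continuous.comp (continuous_add_const (a : ℂ))).continuousAt.eventually_ne hne
  have hpos : ∀ᶠ z in 𝓝 w, 0 < z.re := (isOpen_lt continuous_const Complex.continuous_re).mem_nhds hw
  have hd1 : Differentiable ℂ fun z : ℂ => X (z - a) := hd.comp (by fun_prop)
  have hd2 : Differentiable ℂ fun z : ℂ => X (z + a) := hd.comp (by fun_prop)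
  have hn1 : ‖X (w - a) / X (w + a)‖ = 1 := by
    rw [norm_div, heq, div_self (norm_ne_zero_iff.2 hne)]
  have hloc : IsLocalMax (norm ∘ fun z : ℂ => X (z - a) / X (z + a)) w := by
    filter_upwards [hev, hpos, good_open hd.continuous hg] with z h1 h2 h3
    simp only [Function.comp]
    rw [hn1, norm_div]
    exact div_le_one_of_le₀ (good_le hd.continuous hs happ ha.le h2.le h3) (norm_nonneg _)
  have hconst : ∀ᶠ z in 𝓝 w, X (z - a) / X (z + a) = X (w - a) / X (w + a) :=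
    Complex.eventually_eq_of_isLocalMax_norm (f := fun z : ℂ => X (z - a) / X (z + a))
      (hev.mono fun z hz => (hd1 z).div (hd2 z) hz) hloc
  refine hper _ hn1 fun z => ?_
  have hE : (fun z : ℂ => X (z - a)) = fun z : ℂ => (X (w - a) / X (w + a)) * X (z + a) := by
    refine AnalyticOnNhd.eq_of_eventuallyEq (z₀ := w) (fun z _ => hd1.analyticAt z)
      (fun z _ => (hd2.const_mul _).analyticAt z) ?_
    filter_upwards [hconst, hev] with z h1 h2
    rw [← h1, div_mul_cancel₀ _ h2]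
  exact congrFun hE z

lemma refl_sub (hs : ∀ z : ℂ, X (-(conj z)) = conj (X z)) (w : ℂ) (a : ℝ) :
    ‖X (-(conj w) - a)‖ = ‖X (w + a)‖ ∧ ‖X (-(conj w) + a)‖ = ‖X (w - a)‖ := by
  have h1 : -(conj w) - (a : ℂ) = -(conj (w + a)) := by rw [map_add, Complex.conj_ofReal]; ring
  have h2 : -(conj w) + (a : ℂ) = -(conj (w - a)) := by rw [map_sub, Complex.conj_ofReal]; ring
  rw [h1, h2, hs, hs, Complex.norm_conj, Complex.norm_conj]
  exact ⟨rfl, rfl⟩

lemma good_refl {a : ℝ} {w : ℂ} : Good X a (-(conj w)) ↔ Good X a w := by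
  unfold Good
  simp

/-- points off the axis at which the moduli agree are in the discs -/
theorem not_good (hd : Differentiable ℂ X) (hs : ∀ z : ℂ, X (-(conj z)) = conj (X z)) (happ : AppX X)
    (hst : ∀ s : ℂ, X s = 0 → |s.re| ≤ 1 / 2) {a : ℝ} (hper : NoPer X a) {w : ℂ}
    (ha : 0 < a) (hw : w.re ≠ 0) (heq : ‖X (w - a)‖ = ‖X (w + a)‖) : ¬ Good X a w := by
  intro hg
  rcases lt_or_gt_of_ne hw with h | h
  · have h1 := good_lt hd hs happ hst hper (w := -(conj w)) ha (by simpa using h) (good_refl.2 hg)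
    rw [(refl_sub hs w a).1, (refl_sub hs w a).2, heq] at h1
    exact lt_irrefl _ h1
  · have h1 := good_lt hd hs happ hst hper ha h hg
    rw [heq] at h1
    exact lt_irrefl _ h1

/-- the sum of two translates -/
def Tr (X : ℂ → ℂ) (a : ℝ) (c : ℂ) (z : ℂ) : ℂ := c * X (z - a) + conj c * X (z + a)

lemma Tr_diff (hd : Differentiable ℂ X) (a : ℝ) (c : ℂ) : Differentiable ℂ (Tr X a c) := by
  have hd1 : Differentiable ℂ fun z : ℂ => X (z - a) := hd.comp (by fun_prop)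
  have hd2 : Differentiable ℂ fun z : ℂ => X (z + a) := hd.comp (by fun_prop)
  exact (hd1.const_mul _).add (hd2.const_mul _)

lemma Tr_norm_eq {a : ℝ} {c : ℂ} (hc : c ≠ 0) {w : ℂ} (h : Tr X a c w = 0) : ‖X (w - a)‖ = ‖X (w + a)‖ := by
  unfold Tr at h
  have h1 : c * X (w - a) = -(conj c * X (w + a)) := by linear_combination h
  have h2 := congrArg norm h1
  rw [norm_neg, norm_mul, norm_mul, Complex.norm_conj] at h2
  exact mul_left_cancel₀ (norm_ne_zero_iff.2 hc) h2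

/-- zeros on the axis outside of the discs are simple -/
theorem simple (hd : Differentiable ℂ X) (hs : ∀ z : ℂ, X (-(conj z)) = conj (X z)) (happ : AppX X)
    (hst : ∀ s : ℂ, X s = 0 → |s.re| ≤ 1 / 2) {a : ℝ} (hper : NoPer X a) {w c : ℂ} (hc : c ≠ 0)
    (ha : 0 < a) (hw : w.re = 0) (hg : Good X a w) (h0 : Tr X a c w = 0) : deriv (Tr X a c) w ≠ 0 := by
  intro h1
  have hne := good_ne hst ha.le hw.ge hg
  have hd1 : Differentiable ℂ fun z : ℂ => X (z - a) := hd.comp (by fun_prop)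
  have hd2 : Differentiable ℂ fun z : ℂ => X (z + a) := hd.comp (by fun_prop)
  have hcc : conj c ≠ 0 := by simpa using hc
  -- `q z = (1 - G z) / (1 + G z)`, `G z = - c X (z - a) / (conj c X (z + a))`
  obtain ⟨A, hA⟩ : ∃ A : ℂ → ℂ, A = fun z => conj c * X (z + a) := ⟨_, rfl⟩
  obtain ⟨B, hB⟩ : ∃ B : ℂ → ℂ, B = fun z => -(c * X (z - a)) := ⟨_, rfl⟩
  have hAd : Differentiable ℂ A := by rw [hA]; exact hd2.const_mul _
  have hBd : Differentiable ℂ B := by rw [hB]; exact (hd1.const_mul _).neg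
  have hT : Tr X a c = fun z => A z - B z := by
    funext z
    rw [hA, hB]
    simp only [Tr]
    ring
  have hAw : A w ≠ 0 := by rw [hA]; exact mul_ne_zero hcc hne
  have hABw : A w = B w := by
    have := h0
    rw [hT] at this
    exact sub_eq_zero.1 this
  have hABd : deriv A w = deriv B w := by
    have := h1
    rw [hT, deriv_fun_sub (hAd w) (hBd w)] at this
    exact sub_eq_zero.1 this
  have hsum : A w + B w ≠ 0 := by
    rw [← hABw, ← two_mul]
    exact mul_ne_zero two_ne_zero hAw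
  have hev : ∀ᶠ z in 𝓝 w, A z + B z ≠ 0 ∧ Good X a z := by
    refine Filter.Eventually.and ?_ (good_open hd.continuous hg)
    exact (hAd.continuous.add hBd.continuous).continuousAt.eventually_ne hsum
  obtain ⟨ρ, hρ, hball⟩ := Metric.eventually_nhds_iff_ball.1 hev
  have hball' : ∀ z ∈ closedBall w (ρ / 2), A z + B z ≠ 0 ∧ Good X a z := fun z hz =>
    hball z (closedBall_subset_ball (by linarith) hz)
  have hnA : ∀ z, ‖A z‖ = ‖c‖ * ‖X (z + a)‖ := fun z => by rw [hA]; simp only [norm_mul, Complex.norm_conj]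
  have hnB : ∀ z, ‖B z‖ = ‖c‖ * ‖X (z - a)‖ := fun z => by rw [hB]; simp only [norm_neg, norm_mul]
  have hre : ∀ z, ((A z - B z) / (A z + B z)).re = (‖A z‖ ^ 2 - ‖B z‖ ^ 2) / ‖A z + B z‖ ^ 2 := by
    intro z
    rw [Complex.div_re, ← Complex.normSq_eq_norm_sq, ← Complex.normSq_eq_norm_sq, ← Complex.normSq_eq_norm_sq,
      Complex.normSq_apply, Complex.normSq_apply, Complex.normSq_apply]
    simp only [sub_re, add_re, sub_im, add_im]
    ring
  have hdq : DifferentiableOn ℂ (fun z => (A z - B z) / (A z + B z)) (closedBall w (ρ / 2)) := fun z hz =>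
    (((hAd z).sub (hBd z)).div ((hAd z).add (hBd z)) (hball' z hz).1).differentiableWithinAt
  have hderq : deriv (fun z => (A z - B z) / (A z + B z)) w = 0 := by
    have e1 : HasDerivAt (fun z => A z - B z) (deriv A w - deriv B w) w := (hAd w).hasDerivAt.sub (hBd w).hasDerivAt
    have e2 : HasDerivAt (fun z => A z + B z) (deriv A w + deriv B w) w := (hAd w).hasDerivAt.add (hBd w).hasDerivAt
    rw [(HasDerivAt.fun_div e1 e2 hsum).deriv, hABw, hABd]
    simp
  have hq := Pool.Agent.Y671.LD.CirAux.hopf (f := fun z => (A z - B z) / (A z + B z)) (w := w) (half_pos hρ) hw hdq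
    (by simp [hABw]) hderq (by
      intro z hz
      obtain ⟨hz1, hz2⟩ := hball' z hz
      rw [hre]
      have hn : 0 < ‖A z + B z‖ ^ 2 := by positivity
      rcases le_total 0 z.re with h | h
      · have h3 : ‖B z‖ ≤ ‖A z‖ := by
          rw [hnA, hnB]
          exact mul_le_mul_of_nonneg_left (good_le hd.continuous hs happ ha.le h hz2) (norm_nonneg _)
        exact mul_nonneg h (div_nonneg (sub_nonneg.2 (pow_le_pow_left₀ (norm_nonneg _) h3 2)) hn.le)
      · have h3 : ‖A z‖ ≤ ‖B z‖ := by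
          rw [hnA, hnB]
          refine mul_le_mul_of_nonneg_left ?_ (norm_nonneg _)
          have h4 := good_le hd.continuous hs happ (w := -(conj z)) ha.le (by simpa using h) (good_refl.2 hz2)
          rwa [(refl_sub hs z a).1, (refl_sub hs z a).2] at h4
        exact mul_nonneg_of_nonpos_of_nonpos h
          (div_nonpos_of_nonpos_of_nonneg (sub_nonpos.2 (pow_le_pow_left₀ (norm_nonneg _) h3 2)) hn.le))
  have hmem : w + ((ρ / 2 : ℝ) : ℂ) ∈ closedBall w (ρ / 2) := by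
    rw [mem_closedBall, dist_eq_norm, add_sub_cancel_left, Complex.norm_real, Real.norm_of_nonneg (half_pos hρ).le]
  obtain ⟨hz1, hz2⟩ := hball' _ hmem
  rw [hre] at hq
  have hn : 0 < ‖A (w + ((ρ / 2 : ℝ) : ℂ)) + B (w + ((ρ / 2 : ℝ) : ℂ))‖ ^ 2 := by positivity
  have hlt := good_lt hd hs happ hst hper (w := w + ((ρ / 2 : ℝ) : ℂ)) ha (by
    rw [add_re, ofReal_re, hw, zero_add]; exact half_pos hρ) hz2
  have hcn : 0 < ‖c‖ := norm_pos_iff.2 hc
  have h5 : ‖B (w + ((ρ / 2 : ℝ) : ℂ))‖ < ‖A (w + ((ρ / 2 : ℝ) : ℂ))‖ := by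
    rw [hnA, hnB]
    exact mul_lt_mul_of_pos_left hlt hcn
  have h6 : 0 < (‖A (w + ((ρ / 2 : ℝ) : ℂ))‖ ^ 2 - ‖B (w + ((ρ / 2 : ℝ) : ℂ))‖ ^ 2) /
      ‖A (w + ((ρ / 2 : ℝ) : ℂ)) + B (w + ((ρ / 2 : ℝ) : ℂ))‖ ^ 2 :=
    div_pos (sub_pos.2 (pow_lt_pow_left₀ h5 (norm_nonneg _) two_ne_zero)) hn
  linarith

end

end Pool.Agent.X244.TR
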