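import Pool.Agent.X244.TR.A
import Pool.Agent.Y412.GL.HSZ
import Pool.Agent.Y671.LD.Unit

set_option autoImplicit false

/-! Sums of two translates: the number of zeros in small discs. -/

namespace Pool.Agent.X244.TR

open Complex Filter Topology Metric
open scoped ComplexConjugate
open Pool.Agent.Y671.GL (AppX CG)

noncomputable section

variable {κ : ℝ} {H X Z : ℂ → ℂ}

/-- size of `X` and comparison of translates -/
def Size (X : ℂ → ℂ) : Prop := ∃ g : ℝ → ℝ, (∀ t, 0 < g t) ∧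
  (∀ R : ℝ, ∃ K T0 : ℝ, 0 ≤ K ∧ 2 ≤ T0 ∧ ∀ (t : ℝ) (u : ℂ), T0 ≤ t → ‖u‖ ≤ R →
    ‖X (I * t + u)‖ ≤ Real.exp (K * Real.log t) * g t ∧
    (5 ≤ u.re → X (I * t + u) ≠ 0 ∧ Real.exp (-(K * Real.log t)) * g t ≤ ‖X (I * t + u)‖)) ∧
  (∀ a b : ℝ, 0 < a → 5 + a ≤ b → ∃ T0 : ℝ, 2 ≤ T0 ∧ ∀ t : ℝ, T0 ≤ t →
    ‖X (I * t + b - a)‖ ≤ (1 / 2) * ‖X (I * t + b + a)‖)

theorem size_of (hκ : 1 / 2 ≤ κ) (hC : CG κ H X Z) : Size X := by
  have hκ0 : 0 < κ := by linarith
  have hb : 0 < 2 * κ := by positivity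
  have hbc : ((2 * κ : ℝ) : ℂ) ≠ 0 := by exact_mod_cast hb.ne'
  have hXd := hC.cf.diff
  obtain ⟨F, hF⟩ : ∃ F : ℂ → ℂ, F = fun z => X (z / (2 * κ)) := ⟨_, rfl⟩
  have hFd : Differentiable ℂ F := by rw [hF]; exact hXd.comp (by fun_prop)
  obtain ⟨h, hh⟩ : ∃ h : ℝ → ℝ, h = (fun t : ℝ => if 0 < ‖H (I * t / (2 * κ))‖ then
    ‖H (I * t / (2 * κ))‖ else 1) := ⟨_, rfl⟩
  obtain ⟨h1, -, -, -, -, -, h7⟩ := Pool.Agent.Y412.GL.HSZ.hsz κ H X Z hκ hC F h hF hh
  have hval : ∀ (t : ℝ) (u : ℂ), X (I * t + u) = F (I * ((2 * κ * t : ℝ) : ℂ) + (2 * κ : ℝ) * u) := by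
    intro t u
    rw [hF]
    show X (I * t + u) = X ((I * ((2 * κ * t : ℝ) : ℂ) + (2 * κ : ℝ) * u) / (2 * κ))
    congr 1
    push_cast
    have hkc : (κ : ℂ) ≠ 0 := by exact_mod_cast hκ0.ne'
    field_simp
  refine ⟨fun t => h (2 * κ * t), fun t => h1 _, ?_, ?_⟩
  · intro R
    obtain ⟨K, T0, hT0, hK⟩ := h7 (2 * κ * |R|)
    have hlk := abs_nonneg (Real.log (2 * κ))
    refine ⟨|K| + 2 * |K| * |Real.log (2 * κ)|, max 2 (T0 / (2 * κ)), by positivity, le_max_left _ _, fun t u ht hu => ?_⟩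
    have ht2 : 2 ≤ t := (le_max_left _ _).trans ht
    have htT : T0 ≤ 2 * κ * t := by
      have := (le_max_right _ _).trans ht
      rw [div_le_iff₀ hb] at this
      linarith
    have hu2 : ‖((2 * κ : ℝ) : ℂ) * u‖ ≤ 2 * κ * |R| := by
      rw [norm_mul, Complex.norm_real, Real.norm_of_nonneg hb.le]
      exact mul_le_mul_of_nonneg_left (hu.trans (le_abs_self R)) hb.le
    obtain ⟨a1, a2⟩ := hK (2 * κ * t) _ htT hu2
    have hlog : 1 / 2 ≤ Real.log t := by
      have h2 := Real.log_le_log (by norm_num) ht2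
      have := Real.log_two_gt_d9
      linarith
    have hKl : K * Real.log (2 * κ * t) ≤ (|K| + 2 * |K| * |Real.log (2 * κ)|) * Real.log t ∧
        -(K * Real.log (2 * κ * t)) ≤ (|K| + 2 * |K| * |Real.log (2 * κ)|) * Real.log t := by
      rw [Real.log_mul hb.ne' (by linarith)]
      have hK0 := abs_nonneg K
      have e1 : |K * (Real.log (2 * κ) + Real.log t)| ≤ |K| * (|Real.log (2 * κ)| + Real.log t) := by
        rw [abs_mul]
        refine mul_le_mul_of_nonneg_left ((abs_add_le _ _).trans ?_) hK0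
        rw [abs_of_nonneg (by linarith : (0 : ℝ) ≤ Real.log t)]
      have e2 : |K| * (|Real.log (2 * κ)| + Real.log t) ≤ (|K| + 2 * |K| * |Real.log (2 * κ)|) * Real.log t := by
        have : |K| * |Real.log (2 * κ)| ≤ 2 * |K| * |Real.log (2 * κ)| * Real.log t := by
          have h0 : 0 ≤ |K| * |Real.log (2 * κ)| := by positivity
          nlinarith
        nlinarith
      exact ⟨(le_abs_self _).trans (e1.trans e2), (neg_le_abs _).trans (e1.trans e2)⟩
    rw [hval]
    refine ⟨a1.trans (mul_le_mul_of_nonneg_right (Real.exp_le_exp.2 hKl.1) (h1 _).le), fun hre => ?_⟩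
    obtain ⟨b1, b2, -⟩ := a2 (by
      rw [Complex.re_ofReal_mul]
      nlinarith)
    refine ⟨b1, le_trans (mul_le_mul_of_nonneg_right (Real.exp_le_exp.2 ?_) (h1 _).le) b2⟩
    linarith [hKl.1]
  · intro a b ha hab
    obtain ⟨K, T0, hT0, hK⟩ := h7 (2 * κ * (b + a))
    obtain ⟨T1, hT1⟩ : ∃ T1 : ℝ, T1 = Real.exp (2 * (|K| + 1 / (2 * κ * a))) := ⟨_, rfl⟩
    refine ⟨max 2 (max (T0 / (2 * κ)) (T1 / (2 * κ))), le_max_left _ _, fun t ht => ?_⟩
    have ht2 : 2 ≤ t := (le_max_left _ _).trans ht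
    have htT : T0 ≤ 2 * κ * t := by
      have := (le_max_left _ _).trans ((le_max_right _ _).trans ht)
      rw [div_le_iff₀ hb] at this
      linarith
    have htT1 : T1 ≤ 2 * κ * t := by
      have := (le_max_right _ _).trans ((le_max_right _ _).trans ht)
      rw [div_le_iff₀ hb] at this
      linarith
    have hpos : 0 < 2 * κ * t := by positivity
    have hlog : 2 * (|K| + 1 / (2 * κ * a)) ≤ Real.log (2 * κ * t) := by
      rw [Real.le_log_iff_exp_le hpos, ← hT1]
      exact htT1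
    have e1 : X (I * t + b - a) = F (I * ((2 * κ * t : ℝ) : ℂ) + ((2 * κ * (b + a) : ℝ) : ℂ) + ((-(4 * κ * a) : ℝ) : ℂ)) := by
      have := hval t ((b - a : ℝ) : ℂ)
      rw [show (I * t + ((b - a : ℝ) : ℂ) : ℂ) = I * t + b - a by push_cast; ring] at this
      rw [this]
      congr 1
      push_cast
      ring
    have e2 : X (I * t + b + a) = F (I * ((2 * κ * t : ℝ) : ℂ) + ((2 * κ * (b + a) : ℝ) : ℂ)) := by
      have := hval t ((b + a : ℝ) : ℂ)
      rw [show (I * t + ((b + a : ℝ) : ℂ) : ℂ) = I * t + b + a by push_cast; ring] at this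
      rw [this]
      congr 1
      push_cast
      ring
    have hseg := Pool.Agent.Y412.GL.HSZ.seg_le (H := F) (a := I * ((2 * κ * t : ℝ) : ℂ) + ((2 * κ * (b + a) : ℝ) : ℂ))
      (u := ((-(4 * κ * a) : ℝ) : ℂ)) (lam := Real.log (2 * κ * t) / 2) (K := K) (fun s hs0 hs1 => by
        have e3 : I * ((2 * κ * t : ℝ) : ℂ) + ((2 * κ * (b + a) : ℝ) : ℂ) + (s : ℂ) * ((-(4 * κ * a) : ℝ) : ℂ) =
            I * ((2 * κ * t : ℝ) : ℂ) + ((2 * κ * (b + a) - s * (4 * κ * a) : ℝ) : ℂ) := by push_cast; ring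
        rw [e3]
        have hlow : 10 * κ ≤ 2 * κ * (b + a) - s * (4 * κ * a) := by
          have : s * (4 * κ * a) ≤ 4 * κ * a := by
            have : 0 ≤ 4 * κ * a := by positivity
            nlinarith
          nlinarith
        have hnn : ‖((2 * κ * (b + a) - s * (4 * κ * a) : ℝ) : ℂ)‖ ≤ 2 * κ * (b + a) := by
          rw [Complex.norm_real, Real.norm_of_nonneg (by linarith)]
          have : 0 ≤ s * (4 * κ * a) := by positivity
          linarith
        obtain ⟨c1, -, c2⟩ := (hK _ _ htT hnn).2 (by rw [Complex.ofReal_re]; exact hlow)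
        exact ⟨hFd _, c1, c2⟩)
    rw [e1, e2]
    refine hseg.trans (mul_le_mul_of_nonneg_right ?_ (norm_nonneg _))
    rw [Complex.ofReal_re, Complex.norm_real, Real.norm_eq_abs, abs_neg, abs_of_pos (by positivity)]
    have hA : 0 < 4 * κ * a := by positivity
    have e4 : Real.log (2 * κ * t) / 2 * -(4 * κ * a) + K * (4 * κ * a) ≤ -1 := by
      have hk := le_abs_self K
      have h5 : (1 / (2 * κ * a)) * (4 * κ * a) = 2 := by field_simp; ring
      nlinarith
    calc Real.exp (Real.log (2 * κ * t) / 2 * -(4 * κ * a) + K * (4 * κ * a)) ≤ Real.exp (-1) := Real.exp_le_exp.2 e4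
      _ ≤ 1 / 2 := by
        have := Real.exp_neg_one_lt_d9
        linarith

theorem noPer_of (hS : Size X) {a : ℝ} (ha : 0 < a) : NoPer X a := by
  obtain ⟨g, hg, h1, h2⟩ := hS
  intro c hc hall
  obtain ⟨T0, hT0, h3⟩ := h2 a (5 + a) ha le_rfl
  obtain ⟨K, T1, -, -, h4⟩ := h1 (5 + 2 * a)
  have h5 := h3 (max T0 T1) (le_max_left _ _)
  obtain ⟨-, h6⟩ := h4 (max T0 T1) ((5 + a + a : ℝ) : ℂ) (le_max_right _ _) (by
    rw [Complex.norm_real, Real.norm_of_nonneg (by linarith)]; linarith)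
  obtain ⟨h7, -⟩ := h6 (by rw [Complex.ofReal_re]; linarith)
  have e : (I * ((max T0 T1 : ℝ) : ℂ) + ((5 + a + a : ℝ) : ℂ)) = I * ((max T0 T1 : ℝ) : ℂ) + ((5 + a : ℝ) : ℂ) + a := by
    push_cast; ring
  rw [e] at h7
  have h8 := hall (I * ((max T0 T1 : ℝ) : ℂ) + ((5 + a : ℝ) : ℂ))
  rw [h8, norm_mul, hc, one_mul] at h5
  have := norm_pos_iff.2 h7
  linarith

/-- zeros of the sum of two translates in small discs -/
theorem cnt (hd : Differentiable ℂ X) (hs : ∀ z : ℂ, X (-(conj z)) = conj (X z)) (happ : AppX X)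
    (hst : ∀ s : ℂ, X s = 0 → |s.re| ≤ 1 / 2) (hS : Size X) {a : ℝ} (ha : 0 < a) :
    ∃ C : ℝ, 0 < C ∧ ∀ T t : ℝ, 2 ≤ T → -1 ≤ t → t ≤ T + 1 → ∀ c : ℂ, c ≠ 0 → ∀ S : Finset ℂ,
      (∀ s ∈ S, ‖s - I * t‖ ≤ 1 / 2) → ∑ s ∈ S, (analyticOrderNatAt (Tr X a c) s : ℝ) ≤ C * Real.log T := by
  have hper := noPer_of hS ha
  obtain ⟨g, hg, h1, h2⟩ := hS
  obtain ⟨b, hb⟩ : ∃ b : ℝ, b = 5 + a := ⟨_, rfl⟩
  have hb0 : 0 < b := by linarith
  obtain ⟨T1, hT1, h3⟩ := h2 a b ha hb.ge
  obtain ⟨K, T2, hK0, hT2, h4⟩ := h1 (2 * b + 1 + a)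
  -- the low part
  obtain ⟨TT, hTT⟩ : ∃ TT : ℝ, TT = max T1 T2 := ⟨_, rfl⟩
  have hTT2 : 2 ≤ TT := by rw [hTT]; exact hT1.trans (le_max_left _ _)
  have hlow : ∃ m : ℝ, 0 < m ∧ ∀ t : ℝ, |t| ≤ TT → m ≤ ‖X (I * t + b + a)‖ - ‖X (I * t + b - a)‖ := by
    have hcont : Continuous fun t : ℝ => ‖X (I * t + b + a)‖ - ‖X (I * t + b - a)‖ := by
      have := hd.continuous
      fun_prop
    obtain ⟨t0, ht0, hmin⟩ := (isCompact_Icc (a := -TT) (b := TT)).exists_isMinOn ⟨0, by constructor <;> linarith⟩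
      hcont.continuousOn
    refine ⟨_, ?_, fun t ht => hmin (abs_le.1 ht)⟩
    have hgood : Good X a (I * t0 + b) := by
      intro z hz1 hz2
      exfalso
      have hre : (I * t0 + b : ℂ).re = b := by simp
      rw [hre] at hz2
      have := abs_le.1 hz1
      nlinarith [sq_nonneg a, sq_nonneg ((I * t0 + b : ℂ).im - z.im)]
    have := good_lt hd hs happ hst hper (w := I * t0 + b) ha (by simpa using hb0) hgood
    simp only
    linarith
  obtain ⟨m, hm, hlow⟩ := hlow
  have hup : ∃ M : ℝ, 0 < M ∧ ∀ z : ℂ, ‖z‖ ≤ TT + 3 * b + 2 → ‖X z‖ ≤ M := by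
    obtain ⟨M, hM⟩ := ((isCompact_closedBall (0 : ℂ) (TT + 3 * b + 2)).image_of_continuousOn
      (hd.continuous.norm.continuousOn)).bddAbove
    refine ⟨max M 1, by positivity, fun z hz => ?_⟩
    have : ‖X z‖ ≤ M := hM ⟨z, by simpa using hz, rfl⟩
    exact this.trans (le_max_left _ _)
  obtain ⟨M, hM, hup⟩ := hup
  have hlr : 0 < Real.log ((b + 1) / (b + 1 / 2)) := Real.log_pos (by
    rw [lt_div_iff₀ (by linarith)]; linarith)
  have hlog2 : 0 < Real.log 2 := Real.log_pos (by norm_num)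
  obtain ⟨C1, hC1⟩ : ∃ C1 : ℝ, C1 = |Real.log (2 * M / m)| / Real.log ((b + 1) / (b + 1 / 2)) / Real.log 2 := ⟨_, rfl⟩
  obtain ⟨C2, hC2⟩ : ∃ C2 : ℝ, C2 = (Real.log 4 / Real.log 2 + 2 * K * (1 + 1)) / Real.log ((b + 1) / (b + 1 / 2)) :=
    ⟨_, rfl⟩
  have hC10 : 0 ≤ C1 := by rw [hC1]; positivity
  have hC20 : 0 ≤ C2 := by rw [hC2]; positivity
  refine ⟨C1 + C2 + 1, by positivity, ?_⟩
  intro T t hT ht1 htT c hc S hS
  have hlT : Real.log 2 ≤ Real.log T := Real.log_le_log (by norm_num) hT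
  have hlT0 : 0 < Real.log T := hlog2.trans_le hlT
  have hTd := Tr_diff hd a c
  have hcn : 0 < ‖c‖ := norm_pos_iff.2 hc
  obtain ⟨p, hp⟩ : ∃ p : ℂ, p = I * t + b := ⟨_, rfl⟩
  have hSp : ∀ s ∈ S, ‖s - p‖ ≤ b + 1 / 2 := by
    intro s hs'
    have e : s - p = (s - I * t) - b := by rw [hp]; ring
    rw [e]
    refine (norm_sub_le _ _).trans ?_
    rw [Complex.norm_real, Real.norm_of_nonneg hb0.le]
    linarith [hS s hs']
  have hcent : ‖c‖ * (‖X (p + a)‖ - ‖X (p - a)‖) ≤ ‖Tr X a c p‖ := by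
    unfold Tr
    have := norm_sub_norm_le (conj c * X (p + a)) (-(c * X (p - a)))
    rw [sub_neg_eq_add, norm_neg, norm_mul, norm_mul, Complex.norm_conj, add_comm (conj c * X (p + a))] at this
    linarith
  have hTrle : ∀ z : ℂ, ‖Tr X a c z‖ ≤ ‖c‖ * (‖X (z + a)‖ + ‖X (z - a)‖) := by
    intro z
    unfold Tr
    refine (norm_add_le _ _).trans ?_
    rw [norm_mul, norm_mul, Complex.norm_conj]
    linarith
  rcases le_or_gt t TT with hcase | hcase
  · have htabs : |t| ≤ TT := abs_le.2 ⟨by linarith, hcase⟩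
    have hmc := hlow t htabs
    rw [← hp] at hmc
    have hpc : ‖c‖ * m ≤ ‖Tr X a c p‖ := (mul_le_mul_of_nonneg_left hmc hcn.le).trans hcent
    have hpne : Tr X a c p ≠ 0 := norm_pos_iff.1 (lt_of_lt_of_le (by positivity) hpc)
    have hJ := Pool.Agent.Y671.LD.jcount hTd (c := p) (r := b + 1 / 2) (R := b + 1) (A := |Real.log (2 * M / m)|)
      (by linarith) (by linarith) hpne (by
        intro z hz
        have hzn : ‖z‖ ≤ TT + 2 * b + 1 := by
          have e : z = (z - p) + p := by ring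
          rw [e]
          refine (norm_add_le _ _).trans ?_
          have : ‖p‖ ≤ TT + b := by
            rw [hp]
            refine (norm_add_le _ _).trans ?_
            rw [norm_mul, norm_I, one_mul, Complex.norm_real, Complex.norm_real, Real.norm_eq_abs,
              Real.norm_of_nonneg hb0.le]
            linarith
          linarith
        have hna : ‖(a : ℂ)‖ = a := by rw [Complex.norm_real, Real.norm_of_nonneg ha.le]
        have hx1 : ‖X (z + a)‖ ≤ M := hup _ ((norm_add_le _ _).trans (by rw [hna]; linarith))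
        have hx2 : ‖X (z - a)‖ ≤ M := hup _ ((norm_sub_le _ _).trans (by rw [hna]; linarith))
        calc ‖Tr X a c z‖ ≤ ‖c‖ * (M + M) := (hTrle z).trans (mul_le_mul_of_nonneg_left (add_le_add hx1 hx2) hcn.le)
          _ = (2 * M / m) * (‖c‖ * m) := by field_simp; ring
          _ ≤ Real.exp |Real.log (2 * M / m)| * ‖Tr X a c p‖ := by
            refine mul_le_mul ?_ hpc (by positivity) (Real.exp_pos _).le
            calc 2 * M / m = Real.exp (Real.log (2 * M / m)) := (Real.exp_log (by positivity)).symm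
              _ ≤ _ := Real.exp_le_exp.2 (le_abs_self _)) S hSp
    refine hJ.trans ?_
    have h9 : |Real.log (2 * M / m)| / Real.log ((b + 1) / (b + 1 / 2)) = C1 * Real.log 2 := by
      rw [hC1]; field_simp
    rw [h9]
    nlinarith
  · have ht1' : T1 ≤ t := (le_max_left _ _).trans (hTT ▸ hcase.le)
    have ht2' : T2 ≤ t := (le_max_right _ _).trans (hTT ▸ hcase.le)
    have ht2 : 2 ≤ t := by linarith
    have hlt0 : 0 < Real.log t := Real.log_pos (by linarith)
    have hrat := h3 t ht1'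
    rw [← hp] at hrat
    have hpa : (p + a : ℂ) = I * t + ((b + a : ℝ) : ℂ) := by rw [hp]; push_cast; ring
    obtain ⟨-, h6⟩ := h4 t ((b + a : ℝ) : ℂ) ht2' (by
      rw [Complex.norm_real, Real.norm_of_nonneg (by linarith)]; linarith)
    obtain ⟨-, h7⟩ := h6 (by rw [Complex.ofReal_re]; linarith)
    rw [← hpa] at h7
    have hgt := hg t
    have hpc : ‖c‖ * (Real.exp (-(K * Real.log t)) * g t / 2) ≤ ‖Tr X a c p‖ := by
      refine le_trans (mul_le_mul_of_nonneg_left ?_ hcn.le) hcent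
      linarith
    have hpne : Tr X a c p ≠ 0 := norm_pos_iff.1 (lt_of_lt_of_le (by positivity) hpc)
    have hJ := Pool.Agent.Y671.LD.jcount hTd (c := p) (r := b + 1 / 2) (R := b + 1) (A := Real.log 4 + 2 * K * Real.log t)
      (by linarith) (by linarith) hpne (by
        intro z hz
        have hna : ‖(a : ℂ)‖ = a := by rw [Complex.norm_real, Real.norm_of_nonneg ha.le]
        have hnb : ‖(b : ℂ)‖ = b := by rw [Complex.norm_real, Real.norm_of_nonneg hb0.le]
        have hx : ∀ v : ℂ, ‖v‖ ≤ a → ‖X (z + v)‖ ≤ Real.exp (K * Real.log t) * g t := by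
          intro v hv
          have e : z + v = I * t + ((z - p) + b + v) := by rw [hp]; ring
          rw [e]
          refine (h4 t _ ht2' ?_).1
          refine (norm_add_le _ _).trans ((add_le_add (norm_add_le _ _) le_rfl).trans ?_)
          rw [hnb]
          linarith
        have hx1 := hx a hna.le
        have hx2 := hx (-a) (by rw [norm_neg]; exact hna.le)
        rw [← sub_eq_add_neg] at hx2
        calc ‖Tr X a c z‖ ≤ ‖c‖ * (Real.exp (K * Real.log t) * g t + Real.exp (K * Real.log t) * g t) :=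
              (hTrle z).trans (mul_le_mul_of_nonneg_left (add_le_add hx1 hx2) hcn.le)
          _ = Real.exp (Real.log 4 + 2 * K * Real.log t) * (‖c‖ * (Real.exp (-(K * Real.log t)) * g t / 2)) := by
            rw [Real.exp_add, Real.exp_log (by norm_num),
              show 2 * K * Real.log t = K * Real.log t + K * Real.log t by ring, Real.exp_add]
            have : Real.exp (K * Real.log t) * Real.exp (-(K * Real.log t)) = 1 := by
              rw [← Real.exp_add, add_neg_cancel, Real.exp_zero]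
            linear_combination (-2 * ‖c‖ * Real.exp (K * Real.log t) * g t) * this
          _ ≤ _ := mul_le_mul_of_nonneg_left hpc (Real.exp_pos _).le) S hSp
    refine hJ.trans ?_
    have hltT : Real.log t ≤ 2 * Real.log T := by
      have h10 : t ≤ T ^ 2 := by nlinarith
      calc Real.log t ≤ Real.log (T ^ 2) := Real.log_le_log (by linarith) h10
        _ = 2 * Real.log T := by rw [Real.log_pow]; norm_num
    have h11 : Real.log 4 + 2 * K * Real.log t ≤ (Real.log 4 / Real.log 2 + 2 * K * (1 + 1)) * Real.log T := by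
      have h12 : Real.log 4 ≤ Real.log 4 / Real.log 2 * Real.log T := by
        rw [div_mul_eq_mul_div, le_div_iff₀ hlog2]
        exact mul_le_mul_of_nonneg_left hlT (Real.log_nonneg (by norm_num))
      nlinarith
    calc (Real.log 4 + 2 * K * Real.log t) / Real.log ((b + 1) / (b + 1 / 2))
        ≤ ((Real.log 4 / Real.log 2 + 2 * K * (1 + 1)) * Real.log T) / Real.log ((b + 1) / (b + 1 / 2)) :=
          div_le_div_of_nonneg_right h11 hlr.le
      _ = C2 * Real.log T := by rw [hC2]; ring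
      _ ≤ (C1 + C2 + 1) * Real.log T := by nlinarith

end

end Pool.Agent.X244.TR
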