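import Pool.Agent.X244.TR.B
import Pool.Agent.Y771.NF.Cnt

set_option autoImplicit false

/-! Sums of two translates: the exceptional zeros, and the equivalences. -/

namespace Pool.Agent.X244.TR

open Complex Filter Topology Metric
open scoped ComplexConjugate
open Pool.Agent.Y671.GL (AppX CG)

noncomputable section

variable {X : ℂ → ℂ}

/-- hypotheses -/
structure Hyp (X : ℂ → ℂ) : Prop where
  diff : Differentiable ℂ X
  symm : ∀ z : ℂ, X (-(conj z)) = conj (X z)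
  app : AppX X
  strip : ∀ s : ℂ, X s = 0 → |s.re| ≤ 1 / 2
  size : Size X

/-- density of the zeros off the axis -/
def Den (X : ℂ → ℂ) : Prop := ∀ c : ℝ, c < 1 → ∃ C : ℝ, 0 < C ∧ ∀ δ T : ℝ, 0 ≤ δ → 2 ≤ T → ∀ S : Finset ℂ,
  (∀ s ∈ S, X s = 0 ∧ δ ≤ |s.re| ∧ 0 < s.im ∧ s.im ≤ T) → (S.card : ℝ) ≤ C * T ^ (1 - c * δ) * Real.log T

lemma near {a : ℝ} {w : ℂ} (h : ¬ Good X a w) : ∃ b : ℂ, X b = 0 ∧ |b.re| ≤ 1 / 2 ∧
    w.re ^ 2 + a ^ 2 + (w.im - b.im) ^ 2 ≤ b.re ^ 2 ∧ ‖w - I * b.im‖ ≤ 1 / 2 ∧ |w.im - b.im| ≤ 1 / 2 := by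
  unfold Good at h
  push Not at h
  obtain ⟨b, h1, h2, h3⟩ := h
  have hb := abs_le.1 h1
  have hre2 : b.re ^ 2 ≤ 1 / 4 := by nlinarith
  refine ⟨b, h3, h1, h2, ?_, abs_le_of_sq_le_sq (by nlinarith [sq_nonneg a, sq_nonneg w.re]) (by norm_num)⟩
  refine le_of_sq_le_sq ?_ (by norm_num)
  rw [← Complex.normSq_eq_norm_sq, Complex.normSq_apply]
  simp only [sub_re, mul_re, I_re, ofReal_re, zero_mul, I_im, ofReal_im, mul_zero, sub_self, sub_zero, sub_im,
    mul_im, one_mul, zero_add]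
  nlinarith [sq_nonneg a]

variable {a : ℝ} {c : ℂ}

lemma Tr_symm (hs : ∀ z : ℂ, X (-(conj z)) = conj (X z)) (z : ℂ) : Tr X a c (-(conj z)) = conj (Tr X a c z) := by
  unfold Tr
  have h1 : -(conj z) - (a : ℂ) = -(conj (z + a)) := by rw [map_add, Complex.conj_ofReal]; ring
  have h2 : -(conj z) + (a : ℂ) = -(conj (z - a)) := by rw [map_sub, Complex.conj_ofReal]; ring
  rw [h1, h2, hs, hs, map_add, map_mul, map_mul, Complex.conj_conj]
  ring

lemma exc_ng (h : Hyp X) (ha : 0 < a) (hc : c ≠ 0) {s : ℂ} (h0 : Tr X a c s = 0)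
    (h1 : s.re ≠ 0 ∨ deriv (Tr X a c) s = 0) : ¬ Good X a s := by
  have hper := noPer_of h.size ha
  by_cases hre : s.re = 0
  · intro hg
    rcases h1 with h1 | h1
    · exact h1 hre
    · exact simple h.diff h.symm h.app h.strip hper hc ha hre hg h0 h1
  · exact not_good h.diff h.symm h.app h.strip hper ha hre (Tr_norm_eq hc h0)

lemma Tr_strip (h : Hyp X) (ha : 0 < a) (hc : c ≠ 0) {s : ℂ} (h0 : Tr X a c s = 0) : |s.re| ≤ 1 / 2 := by
  by_cases hre : s.re = 0
  · rw [hre, abs_zero]; norm_num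
  · obtain ⟨b, -, h1, h2, -, -⟩ := near (exc_ng h ha hc h0 (Or.inl hre))
    have hb := abs_le.1 h1
    have hre2 : b.re ^ 2 ≤ 1 / 4 := by nlinarith
    exact abs_le_of_sq_le_sq (by nlinarith [sq_nonneg a, sq_nonneg (s.im - b.im)]) (by norm_num)

lemma fin_im (h : Hyp X) (A B : ℝ) : {b : ℂ | X b = 0 ∧ A ≤ b.im ∧ b.im ≤ B}.Finite := by
  have hne : X 1 ≠ 0 := by
    intro h0
    have := h.strip 1 h0
    norm_num at this
  have hK : IsCompact (Set.Icc (-(1 / 2 : ℝ)) (1 / 2) ×ℂ Set.Icc A B) := isCompact_Icc.reProdIm isCompact_Icc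
  refine (Pool.Agent.W605.SD.fin_zeros h.diff hne hK).subset ?_
  rintro z ⟨h1, h2, h3⟩
  refine ⟨?_, h1⟩
  rw [mem_reProdIm]
  have := abs_le.1 (h.strip _ h1)
  exact ⟨⟨this.1, this.2⟩, h2, h3⟩

theorem main (h : Hyp X) (hden : Den X) (ha : 0 < a) {c : ℝ} (hc : c < 1) :
    ∃ C : ℝ, 0 < C ∧ ∀ δ T : ℝ, 0 ≤ δ → 2 ≤ T → ∀ u : ℂ, u ≠ 0 → ∀ S : Finset ℂ,
      (∀ s ∈ S, Tr X a u s = 0 ∧ (s.re ≠ 0 ∨ deriv (Tr X a u) s = 0) ∧ δ ≤ |s.re| ∧ 0 < s.im ∧ s.im ≤ T) →
      ∑ s ∈ S, (analyticOrderNatAt (Tr X a u) s : ℝ) ≤ C * T ^ (1 - c * Real.sqrt (a ^ 2 + δ ^ 2)) := by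
  classical
  obtain ⟨c', hcc, hc0, hc1⟩ : ∃ c' : ℝ, c < c' ∧ 0 < c' ∧ c' < 1 := by
    refine ⟨(max c 0 + 1) / 2, ?_, ?_, ?_⟩
    · have := le_max_left c 0
      linarith
    · have := le_max_right c 0
      linarith
    · have : max c 0 < 1 := max_lt hc one_pos
      linarith
  obtain ⟨C0, hC0, hD⟩ := hden c' hc1
  obtain ⟨C1, hC1, hcnt⟩ := cnt h.diff h.symm h.app h.strip h.size ha
  have hlog2 : 0 < Real.log 2 := Real.log_pos (by norm_num)
  obtain ⟨N0, hN0⟩ : ∃ N0 : ℝ, N0 = ((fin_im h (-1) 0).toFinset.card : ℝ) := ⟨_, rfl⟩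
  have hN00 : 0 ≤ N0 := by rw [hN0]; positivity
  -- the logarithms
  obtain ⟨ε, hε⟩ : ∃ ε : ℝ, ε = (c' - c) * a / 2 := ⟨_, rfl⟩
  have hε0 : 0 < ε := by rw [hε]; have := mul_pos (sub_pos.2 hcc) ha; linarith
  have hlogsq : ∀ T : ℝ, 2 ≤ T → Real.log T ^ 2 ≤ (1 / ε) ^ 2 * T ^ ((c' - c) * a) := by
    intro T hT
    have h1 := Real.log_le_rpow_div (by linarith : (0 : ℝ) ≤ T) hε0
    have h2 : 0 ≤ Real.log T := Real.log_nonneg (by linarith)
    have h3 : T ^ ((c' - c) * a) = (T ^ ε) ^ 2 := by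
      rw [← Real.rpow_natCast, ← Real.rpow_mul (by linarith), hε]
      congr 1
      push_cast
      ring
    rw [h3, ← mul_pow]
    refine pow_le_pow_left₀ h2 (h1.trans (le_of_eq ?_)) 2
    ring
  refine ⟨C1 * (4 * C0 + N0 / Real.log 2) * (1 / ε) ^ 2, by positivity, ?_⟩
  intro δ T hδ hT u hu S hS
  obtain ⟨D, hDd⟩ : ∃ D : ℝ, D = Real.sqrt (a ^ 2 + δ ^ 2) := ⟨_, rfl⟩
  have hDsq : D ^ 2 = a ^ 2 + δ ^ 2 := by rw [hDd, Real.sq_sqrt (by positivity)]
  have hD0 : 0 ≤ D := by rw [hDd]; exact Real.sqrt_nonneg _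
  have hDa : a ≤ D := by
    refine le_of_sq_le_sq ?_ hD0
    nlinarith [sq_nonneg δ]
  rw [← hDd]
  have hT0 : (0 : ℝ) < T := by linarith
  have hlT : Real.log 2 ≤ Real.log T := Real.log_le_log (by norm_num) hT
  have hlT0 : 0 < Real.log T := hlog2.trans_le hlT
  have hnear : ∀ s ∈ S, ∃ b : ℂ, X b = 0 ∧ |b.re| ≤ 1 / 2 ∧ D ≤ |b.re| ∧ ‖s - I * b.im‖ ≤ 1 / 2 ∧ |s.im - b.im| ≤ 1 / 2 := by
    intro s hs
    obtain ⟨h0, h1, h2, h3, h4⟩ := hS s hs
    obtain ⟨b, hb1, hb2, hb3, hb4, hb5⟩ := near (exc_ng h ha hu h0 h1)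
    refine ⟨b, hb1, hb2, ?_, hb4, hb5⟩
    refine le_of_sq_le_sq ?_ (abs_nonneg _)
    rw [sq_abs, hDsq]
    have h5 : δ ^ 2 ≤ s.re ^ 2 := by
      rw [← sq_abs s.re]
      exact pow_le_pow_left₀ hδ h2 2
    nlinarith [sq_nonneg (s.im - b.im)]
  rcases S.eq_empty_or_nonempty with hSe | ⟨s1, hs1⟩
  · rw [hSe, Finset.sum_empty]
    have := Real.rpow_nonneg hT0.le (1 - c * D)
    positivity
  have hD12 : D ≤ 1 / 2 := by
    obtain ⟨b, -, hb2, hb3, -⟩ := hnear s1 hs1
    exact hb3.trans hb2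
  obtain ⟨B, hB⟩ : ∃ B : Finset ℂ, B = (fin_im h (-1) (T + 1 / 2)).toFinset.filter (fun b => D ≤ |b.re|) := ⟨_, rfl⟩
  have hcardB : (B.card : ℝ) ≤ (4 * C0 + N0 / Real.log 2) * (T ^ (1 - c' * D) * Real.log T) := by
    have hsplit : B ⊆ (fin_im h (-1) 0).toFinset ∪ B.filter (fun b => 0 < b.im) := by
      intro b hb
      rw [Finset.mem_union]
      rcases le_or_gt b.im 0 with h1 | h1
      · left
        rw [hB, Finset.mem_filter, Set.Finite.mem_toFinset] at hb
        rw [Set.Finite.mem_toFinset]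
        exact ⟨hb.1.1, hb.1.2.1, h1⟩
      · right
        exact Finset.mem_filter.2 ⟨hb, h1⟩
    have h1 : (B.card : ℝ) ≤ N0 + ((B.filter (fun b => 0 < b.im)).card : ℝ) := by
      have := (Finset.card_le_card hsplit).trans (Finset.card_union_le _ _)
      rw [hN0]
      exact_mod_cast this
    have h2 : ((B.filter (fun b => 0 < b.im)).card : ℝ) ≤ C0 * (T + 1 / 2) ^ (1 - c' * D) * Real.log (T + 1 / 2) := by
      refine hD D (T + 1 / 2) hD0 (by linarith) _ fun b hb => ?_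
      rw [Finset.mem_filter, hB, Finset.mem_filter, Set.Finite.mem_toFinset] at hb
      exact ⟨hb.1.1.1, hb.1.2, hb.2, hb.1.1.2.2⟩
    have hexp : 0 ≤ 1 - c' * D := by nlinarith
    have hexp1 : 1 - c' * D ≤ 1 := by nlinarith
    have h3 : (T + 1 / 2) ^ (1 - c' * D) ≤ 2 * T ^ (1 - c' * D) := by
      calc (T + 1 / 2) ^ (1 - c' * D) ≤ (2 * T) ^ (1 - c' * D) := Real.rpow_le_rpow (by linarith) (by linarith) hexp
        _ = 2 ^ (1 - c' * D) * T ^ (1 - c' * D) := Real.mul_rpow (by norm_num) hT0.le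
        _ ≤ 2 * T ^ (1 - c' * D) := by
          refine mul_le_mul_of_nonneg_right ?_ (Real.rpow_nonneg hT0.le _)
          calc (2 : ℝ) ^ (1 - c' * D) ≤ 2 ^ (1 : ℝ) := Real.rpow_le_rpow_of_exponent_le (by norm_num) hexp1
            _ = 2 := Real.rpow_one 2
    have h4 : Real.log (T + 1 / 2) ≤ 2 * Real.log T := by
      calc Real.log (T + 1 / 2) ≤ Real.log (T ^ 2) := Real.log_le_log (by linarith) (by nlinarith)
        _ = 2 * Real.log T := by rw [Real.log_pow]; norm_num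
    have hp := Real.rpow_nonneg hT0.le (1 - c' * D)
    have h5 : C0 * (T + 1 / 2) ^ (1 - c' * D) * Real.log (T + 1 / 2) ≤ C0 * (2 * T ^ (1 - c' * D)) * (2 * Real.log T) := by
      refine mul_le_mul (mul_le_mul_of_nonneg_left h3 hC0.le) h4 (Real.log_nonneg (by linarith)) (by positivity)
    have h6 : N0 ≤ N0 / Real.log 2 * (T ^ (1 - c' * D) * Real.log T) := by
      have h7 : (1 : ℝ) ≤ T ^ (1 - c' * D) := Real.one_le_rpow (by linarith) hexp
      have h8 : Real.log 2 ≤ T ^ (1 - c' * D) * Real.log T := by nlinarith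
      calc N0 = N0 / Real.log 2 * Real.log 2 := by field_simp
        _ ≤ _ := mul_le_mul_of_nonneg_left h8 (by positivity)
    nlinarith
  -- the fibres
  choose! β hβ1 hβ2 hβ3 hβ4 hβ5 using hnear
  have hmaps : ∀ s ∈ S, β s ∈ B := by
    intro s hs
    obtain ⟨-, -, -, h3, h4⟩ := hS s hs
    have h5 := abs_le.1 (hβ5 s hs)
    rw [hB, Finset.mem_filter, Set.Finite.mem_toFinset]
    refine ⟨⟨hβ1 s hs, by linarith, by linarith⟩, hβ3 s hs⟩
  rw [← Finset.sum_fiberwise_of_maps_to hmaps]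
  have hfib : ∀ b ∈ B, ∑ s ∈ S.filter (fun s => β s = b), (analyticOrderNatAt (Tr X a u) s : ℝ) ≤ C1 * Real.log T := by
    intro b hb
    rw [hB, Finset.mem_filter, Set.Finite.mem_toFinset] at hb
    refine hcnt T b.im hT (by linarith [hb.1.2.1]) (by linarith [hb.1.2.2]) u hu _ fun s hs => ?_
    obtain ⟨hs1, hs2⟩ := Finset.mem_filter.1 hs
    rw [← hs2]
    exact hβ4 s hs1
  have hsum := Finset.sum_le_card_nsmul B _ _ hfib
  rw [nsmul_eq_mul] at hsum
  refine hsum.trans ?_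
  have hp := Real.rpow_nonneg hT0.le (1 - c' * D)
  calc (B.card : ℝ) * (C1 * Real.log T) ≤ ((4 * C0 + N0 / Real.log 2) * (T ^ (1 - c' * D) * Real.log T)) * (C1 * Real.log T) :=
        mul_le_mul_of_nonneg_right hcardB (by positivity)
    _ = C1 * (4 * C0 + N0 / Real.log 2) * (T ^ (1 - c' * D) * Real.log T ^ 2) := by ring
    _ ≤ C1 * (4 * C0 + N0 / Real.log 2) * (T ^ (1 - c' * D) * ((1 / ε) ^ 2 * T ^ ((c' - c) * a))) := by
        refine mul_le_mul_of_nonneg_left (mul_le_mul_of_nonneg_left (hlogsq T hT) hp) (by positivity)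
    _ ≤ C1 * (4 * C0 + N0 / Real.log 2) * (T ^ (1 - c' * D) * ((1 / ε) ^ 2 * T ^ ((c' - c) * D))) := by
        refine mul_le_mul_of_nonneg_left (mul_le_mul_of_nonneg_left (mul_le_mul_of_nonneg_left ?_ (by positivity)) hp)
          (by positivity)
        exact Real.rpow_le_rpow_of_exponent_le (by linarith) (mul_le_mul_of_nonneg_left hDa (by linarith))
    _ = C1 * (4 * C0 + N0 / Real.log 2) * (1 / ε) ^ 2 * (T ^ (1 - c' * D) * T ^ ((c' - c) * D)) := by ring
    _ = C1 * (4 * C0 + N0 / Real.log 2) * (1 / ε) ^ 2 * T ^ (1 - c * D) := by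
        rw [← Real.rpow_add hT0]
        congr 2
        ring

/-! ## Equivalences -/

lemma ex_unit {x y : ℂ} (h : ‖x‖ = ‖y‖) : ∃ c : ℂ, ‖c‖ = 1 ∧ c * x + conj c * y = 0 := by
  by_cases hx : x = 0
  · refine ⟨1, by simp, ?_⟩
    rw [hx, norm_zero] at h
    rw [hx, norm_eq_zero.1 h.symm]
    simp
  · obtain ⟨c, hc⟩ := IsAlgClosed.exists_pow_nat_eq (-(y / x)) (n := 2) (by norm_num)
    have hn : ‖c‖ ^ 2 = 1 := by
      rw [← norm_pow, hc, norm_neg, norm_div, h, div_self]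
      rw [← h]
      exact norm_ne_zero_iff.2 hx
    have hn1 : ‖c‖ = 1 := by
      have := norm_nonneg c
      nlinarith [sq_nonneg (‖c‖ - 1)]
    have hc0 : c ≠ 0 := norm_ne_zero_iff.1 (by rw [hn1]; exact one_ne_zero)
    refine ⟨c, hn1, ?_⟩
    have h1 : c * conj c = 1 := by rw [Complex.mul_conj, Complex.normSq_eq_norm_sq, hn1]; norm_num
    have h2 : c ^ 2 * x = -y := by rw [hc]; field_simp
    have h3 : c * (c * x + conj c * y) = 0 := by linear_combination h2 + y * h1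
    exact (mul_eq_zero.1 h3).resolve_left hc0

theorem real_iff (h : Hyp X) (ha : 0 < a) :
    (∀ c : ℂ, ‖c‖ = 1 → ∀ s : ℂ, Tr X a c s = 0 → s.re = 0) ↔ ∀ b : ℂ, X b = 0 → |b.re| ≤ a := by
  constructor
  · intro hall
    -- positive real part
    have key : ∀ b : ℂ, X b = 0 → b.re ≤ a := by
      intro b hb
      by_contra hcon
      push Not at hcon
      have hper := noPer_of h.size ha
      have hcont : Continuous fun r : ℝ => ‖X ((b - a + r) - a)‖ - ‖X ((b - a + r) + a)‖ := by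
        have := h.diff.continuous
        fun_prop
      have h0 : 0 ≤ ‖X ((b - a + (0 : ℝ)) - a)‖ - ‖X ((b - a + (0 : ℝ)) + a)‖ := by
        have e : (b - a + ((0 : ℝ) : ℂ)) + a = b := by push_cast; ring
        rw [e, hb, norm_zero, sub_zero]
        exact norm_nonneg _
      have h1 : ‖X ((b - a + (1 : ℝ)) - a)‖ - ‖X ((b - a + (1 : ℝ)) + a)‖ ≤ 0 := by
        have hre : (b - a + ((1 : ℝ) : ℂ)).re = b.re - a + 1 := by simp
        have hg : Good X a (b - a + ((1 : ℝ) : ℂ)) := by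
          intro z hz1 hz2
          exfalso
          rw [hre] at hz2
          have := abs_le.1 hz1
          nlinarith [sq_nonneg a, sq_nonneg ((b - a + ((1 : ℝ) : ℂ)).im - z.im)]
        have := good_lt h.diff h.symm h.app h.strip hper (w := b - a + ((1 : ℝ) : ℂ)) ha (by rw [hre]; linarith) hg
        linarith
      obtain ⟨r, hr, hr0⟩ := intermediate_value_Icc' zero_le_one hcont.continuousOn ⟨h1, h0⟩
      obtain ⟨c, hc1, hc2⟩ := ex_unit (sub_eq_zero.1 hr0)
      have := hall c hc1 (b - a + r) hc2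
      rw [add_re, sub_re, ofReal_re, ofReal_re] at this
      linarith [hr.1]
    intro b hb
    refine abs_le.2 ⟨?_, key b hb⟩
    have h1 := key (-(conj b)) (by rw [h.symm, hb, map_zero])
    rw [neg_re, conj_re] at h1
    linarith
  · intro hb c hc s hs
    by_contra hre
    have hc0 : c ≠ 0 := norm_ne_zero_iff.1 (by rw [hc]; exact one_ne_zero)
    obtain ⟨b, h1, -, h2, -, -⟩ := near (exc_ng h ha hc0 hs (Or.inl hre))
    have h3 := hb b h1
    have h4 : b.re ^ 2 ≤ a ^ 2 := by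
      rw [← sq_abs b.re]
      exact pow_le_pow_left₀ (abs_nonneg _) h3 2
    have h5 : 0 < s.re ^ 2 := by positivity
    nlinarith [sq_nonneg (s.im - b.im)]

lemma deriv_symm (h : Hyp X) (z : ℂ) : deriv X (-(conj z)) = -conj (deriv X z) := by
  have h1 : HasDerivAt X (deriv X z) z := (h.diff z).hasDerivAt
  have h2 : HasDerivAt (fun w => conj (X (conj w))) (conj (deriv X z)) (conj z) := by
    have := h1.conj_conj
    exact this
  have h3 : HasDerivAt (fun w => conj (X (conj (-w)))) (conj (deriv X z) * -1) (-(conj z)) := by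
    have h4 : HasDerivAt (fun w => conj (X (conj w))) (conj (deriv X z)) (-(-(conj z))) := by rw [neg_neg]; exact h2
    exact h4.comp (-(conj z)) (hasDerivAt_neg _)
  have e : (fun w => conj (X (conj (-w)))) = X := by
    funext w
    rw [← h.symm]
    congr 1
    simp
  rw [e] at h3
  rw [h3.deriv]
  ring

theorem simple_iff (h : Hyp X) (ha : 0 < a) :
    (∀ c : ℂ, ‖c‖ = 1 → ∀ s : ℂ, Tr X a c s = 0 → s.re = 0 ∧ deriv (Tr X a c) s ≠ 0) ↔
      ∀ b : ℂ, X b = 0 → |b.re| < a := by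
  constructor
  · intro hall
    have h1 := (real_iff h ha).1 fun c hc s hs => (hall c hc s hs).1
    have key : ∀ b : ℂ, X b = 0 → b.re ≠ a := by
      intro b hb hba
      -- `w = i b.im`
      have e1 : (I * b.im : ℂ) + a = b := by apply Complex.ext <;> simp [hba]
      have e2 : (I * b.im : ℂ) - a = -(conj b) := by apply Complex.ext <;> simp [hba]
      have hn : ‖deriv X ((I * b.im : ℂ) - a)‖ = ‖deriv X ((I * b.im : ℂ) + a)‖ := by
        rw [e1, e2, deriv_symm h, norm_neg, Complex.norm_conj]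
      obtain ⟨c, hc1, hc2⟩ := ex_unit hn
      have h2 : Tr X a c (I * b.im) = 0 := by
        unfold Tr
        rw [e1, e2, h.symm, hb]
        simp
      have h3 : deriv (Tr X a c) (I * b.im) = 0 := by
        have d1 : HasDerivAt (fun z : ℂ => X (z - a)) (deriv X ((I * b.im : ℂ) - a)) (I * b.im) := by
          have := (h.diff ((I * b.im : ℂ) - a)).hasDerivAt.comp (I * b.im : ℂ) ((hasDerivAt_id _).sub_const (a : ℂ))
          rw [mul_one] at this
          exact this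
        have d2 : HasDerivAt (fun z : ℂ => X (z + a)) (deriv X ((I * b.im : ℂ) + a)) (I * b.im) := by
          have := (h.diff ((I * b.im : ℂ) + a)).hasDerivAt.comp (I * b.im : ℂ) ((hasDerivAt_id _).add_const (a : ℂ))
          rw [mul_one] at this
          exact this
        have := ((d1.const_mul c).add (d2.const_mul (conj c))).deriv
        rw [hc2] at this
        exact this
      exact (hall c hc1 _ h2).2 h3
    intro b hb
    refine lt_of_le_of_ne (h1 b hb) fun he => ?_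
    rcases abs_eq ha.le |>.1 he with h2 | h2
    · exact key b hb h2
    · refine key (-(conj b)) (by rw [h.symm, hb, map_zero]) ?_
      rw [neg_re, conj_re, h2, neg_neg]
  · intro hb c hc s hs
    have hc0 : c ≠ 0 := norm_ne_zero_iff.1 (by rw [hc]; exact one_ne_zero)
    have h4 : Good X a s := by
      intro b _ h2 h1
      have h3 := hb b h1
      have h4 : b.re ^ 2 < a ^ 2 := by
        rw [← sq_abs b.re]
        exact pow_lt_pow_left₀ h3 (abs_nonneg _) (by norm_num)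
      nlinarith [sq_nonneg s.re, sq_nonneg (s.im - b.im)]
    by_contra hcon
    refine exc_ng h ha hc0 hs ?_ h4
    by_cases h5 : s.re = 0
    · right
      by_contra h6
      exact hcon ⟨h5, h6⟩
    · exact Or.inl h5

end

end Pool.Agent.X244.TR
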