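import Pool.Agent.X244.TR.C

set_option autoImplicit false

/-! Sums of two translates: final form. -/

namespace Pool.Agent.X244.TR

open Complex Filter Topology Metric
open scoped ComplexConjugate
open Pool.Agent.Y771.NF (Cnt.num)

noncomputable section

lemma ord_pos {f : ℂ → ℂ} (hf : Differentiable ℂ f) (hne : ∃ z, f z ≠ 0) {s : ℂ} (hs : f s = 0) :
    1 ≤ analyticOrderNatAt f s := by
  rw [Nat.one_le_iff_ne_zero]
  intro h0
  have h1 : analyticOrderAt f s ≠ 0 := by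
    intro h
    exact (AnalyticAt.analyticOrderAt_eq_zero (hf.analyticAt s)).1 h hs
  have h2 : analyticOrderAt f s ≠ ⊤ := by
    intro h
    rw [analyticOrderAt_eq_top] at h
    obtain ⟨z, hz⟩ := hne
    have hE : f = fun _ => 0 := AnalyticOnNhd.eq_of_eventuallyEq (z₀ := s) (fun z _ => hf.analyticAt z)
      (fun z _ => analyticAt_const) h
    exact hz (congrFun hE z)
  unfold analyticOrderNatAt at h0
  rcases ENat.toNat_eq_zero.1 h0 with h | h
  · exact h1 h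
  · exact h2 h

/-- `e^{iθ} G(z + i a) + e^{-iθ} G(z - i a)` -/
def Zt (G : ℂ → ℂ) (a θ : ℝ) (z : ℂ) : ℂ :=
  Complex.exp (I * θ) * G (z + I * a) + Complex.exp (-(I * θ)) * G (z - I * a)

/-- The zeros of `F` with real part in `(0, T]` and distance at least `δ` from the real line which are not real or not
simple. -/
def Exc (F : ℂ → ℂ) (δ T : ℝ) : Set ℂ := {z | F z = 0 ∧ (z.im ≠ 0 ∨ deriv F z = 0) ∧ δ ≤ |z.im| ∧ 0 < z.re ∧ z.re ≤ T}

variable {X G : ℂ → ℂ} {v : ℂ}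

lemma conj_exp (θ : ℝ) : conj (Complex.exp (I * θ)) = Complex.exp (-(I * θ)) := by
  rw [← Complex.exp_conj]
  congr 1
  rw [map_mul, Complex.conj_I, Complex.conj_ofReal]
  ring

lemma Zt_eq (hG : ∀ z, G z = v * X (I * z)) (a θ : ℝ) (z : ℂ) :
    Zt G a θ z = v * Tr X a (Complex.exp (I * θ)) (I * z) := by
  unfold Zt Tr
  have e1 : I * (z + I * a) = I * z - a := by linear_combination (a : ℂ) * I_mul_I
  have e2 : I * (z - I * a) = I * z + a := by linear_combination -(a : ℂ) * I_mul_I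
  rw [hG, hG, e1, e2, conj_exp]
  ring

lemma norm_exp_I (θ : ℝ) : ‖Complex.exp (I * θ)‖ = 1 := by
  rw [mul_comm, Complex.norm_exp_ofReal_mul_I]

lemma ex_theta {c : ℂ} (hc : ‖c‖ = 1) : ∃ θ : ℝ, Complex.exp (I * θ) = c := by
  obtain ⟨θ, hθ⟩ := Complex.norm_eq_one_iff c |>.1 hc
  exact ⟨θ, by rw [mul_comm]; exact hθ⟩

lemma deriv_Zt (hX : Differentiable ℂ X) (hG : ∀ z, G z = v * X (I * z)) (a θ : ℝ) (z : ℂ) :
    deriv (Zt G a θ) z = v * (deriv (Tr X a (Complex.exp (I * θ))) (I * z) * I) := by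
  have e : Zt G a θ = fun z => v * Tr X a (Complex.exp (I * θ)) (I * z) := funext fun z => Zt_eq hG a θ z
  rw [e]
  have h1 : HasDerivAt (fun z : ℂ => I * z) I z := by
    simpa using (hasDerivAt_id z).const_mul I
  exact (((Tr_diff hX a _ (I * z)).hasDerivAt.comp z h1).const_mul v).deriv

theorem fin (h : Hyp X) (hden : Den X) (hv : v ≠ 0) (hG : ∀ z, G z = v * X (I * z)) :
    (∀ a : ℝ, 0 < a →
      ((∀ (θ : ℝ) (z : ℂ), Zt G a θ z = 0 → z.im = 0) ↔ ∀ z, G z = 0 → |z.im| ≤ a) ∧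
      ((∀ (θ : ℝ) (z : ℂ), Zt G a θ z = 0 → z.im = 0 ∧ deriv (Zt G a θ) z ≠ 0) ↔ ∀ z, G z = 0 → |z.im| < a)) ∧
    ((∀ z, G z = 0 → z.im = 0) ↔ ∀ a : ℝ, 0 < a → ∀ (θ : ℝ) (z : ℂ), Zt G a θ z = 0 → z.im = 0) ∧
    ∀ a c : ℝ, 0 < a → c < 1 → ∃ C : ℝ, 0 < C ∧ ∀ θ δ T : ℝ, 0 ≤ δ → 2 ≤ T →
      (Exc (Zt G a θ) δ T).Finite ∧
      (Cnt.num (Zt G a θ) (Exc (Zt G a θ) δ T) : ℝ) ≤ C * T ^ (1 - c * Real.sqrt (a ^ 2 + δ ^ 2)) := by
  have hI : ∀ w : ℂ, I * (-I * w) = w := Pool.Agent.Y771.NF.Cnt.rot_inv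
  have him : ∀ w : ℂ, (-I * w).im = -w.re := fun w => by simp
  have him2 : ∀ w : ℂ, (I * w).re = -w.im := fun w => by simp
  have hG0 : ∀ z, G z = 0 ↔ X (I * z) = 0 := fun z => by rw [hG]; simp [hv]
  have hZ0 : ∀ (a θ : ℝ) (z : ℂ), Zt G a θ z = 0 ↔ Tr X a (Complex.exp (I * θ)) (I * z) = 0 := fun a θ z => by
    rw [Zt_eq hG]; simp [hv]
  have hZd : ∀ (a θ : ℝ) (z : ℂ), deriv (Zt G a θ) z = 0 ↔ deriv (Tr X a (Complex.exp (I * θ))) (I * z) = 0 :=
    fun a θ z => by rw [deriv_Zt h.diff hG]; simp [hv]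
  -- zeros of `G` and zeros of `X`
  have hle : ∀ a : ℝ, (∀ z, G z = 0 → |z.im| ≤ a) ↔ ∀ b, X b = 0 → |b.re| ≤ a := by
    intro a
    constructor
    · intro h1 b hb
      have := h1 (-I * b) ((hG0 _).2 (by rw [hI]; exact hb))
      rwa [him, abs_neg] at this
    · intro h1 z hz
      have := h1 (I * z) ((hG0 _).1 hz)
      rwa [him2, abs_neg] at this
  have hlt : ∀ a : ℝ, (∀ z, G z = 0 → |z.im| < a) ↔ ∀ b, X b = 0 → |b.re| < a := by
    intro a
    constructor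
    · intro h1 b hb
      have := h1 (-I * b) ((hG0 _).2 (by rw [hI]; exact hb))
      rwa [him, abs_neg] at this
    · intro h1 z hz
      have := h1 (I * z) ((hG0 _).1 hz)
      rwa [him2, abs_neg] at this
  have hR : ∀ a : ℝ, 0 < a → ((∀ (θ : ℝ) (z : ℂ), Zt G a θ z = 0 → z.im = 0) ↔ ∀ z, G z = 0 → |z.im| ≤ a) := by
    intro a ha
    rw [hle, ← real_iff h ha]
    constructor
    · intro h1 c hc s hs
      obtain ⟨θ, rfl⟩ := ex_theta hc
      have := h1 θ (-I * s) ((hZ0 _ _ _).2 (by rw [hI]; exact hs))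
      rw [him] at this
      linarith
    · intro h1 θ z hz
      have := h1 _ (norm_exp_I θ) (I * z) ((hZ0 _ _ _).1 hz)
      rw [him2] at this
      linarith
  refine ⟨fun a ha => ⟨hR a ha, ?_⟩, ?_, ?_⟩
  · rw [hlt, ← simple_iff h ha]
    constructor
    · intro h1 c hc s hs
      obtain ⟨θ, rfl⟩ := ex_theta hc
      obtain ⟨h2, h3⟩ := h1 θ (-I * s) ((hZ0 _ _ _).2 (by rw [hI]; exact hs))
      rw [him] at h2
      refine ⟨by linarith, fun h4 => h3 ?_⟩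
      rw [hZd, hI]
      exact h4
    · intro h1 θ z hz
      obtain ⟨h2, h3⟩ := h1 _ (norm_exp_I θ) (I * z) ((hZ0 _ _ _).1 hz)
      rw [him2] at h2
      exact ⟨by linarith, fun h4 => h3 ((hZd _ _ _).1 h4)⟩
  · constructor
    · intro h1 a ha
      refine (hR a ha).2 fun z hz => ?_
      rw [h1 z hz, abs_zero]
      exact ha.le
    · intro h1 z hz
      by_contra hne
      have hpos : 0 < |z.im| := abs_pos.2 hne
      have := (hR (|z.im| / 2) (by linarith)).1 (h1 _ (by linarith)) z hz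
      linarith
  · intro a c ha hc
    obtain ⟨C, hC, hmain⟩ := main h hden ha hc
    refine ⟨C, hC, fun θ δ T hδ hT => ?_⟩
    have hu : Complex.exp (I * θ) ≠ 0 := Complex.exp_ne_zero _
    have hgx : ∀ z, Zt G a θ z = v * Tr X a (Complex.exp (I * θ)) (I * z) := Zt_eq hG a θ
    have hfin : (Exc (Zt G a θ) δ T).Finite :=
      (Pool.Agent.Y771.NF.Cnt.fin_rot hv (Tr_diff h.diff a _) hgx (fun s hs => Tr_strip h ha hu hs) 0 T).subset
        fun z hz => ⟨hz.1, hz.2.2.2.1.le, hz.2.2.2.2⟩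
    refine ⟨hfin, ?_⟩
    refine Pool.Agent.Y771.NF.Cnt.num_le hv (Tr_diff h.diff a _) hgx hfin
      (P := fun s => Tr X a (Complex.exp (I * θ)) s = 0 ∧ (s.re ≠ 0 ∨ deriv (Tr X a (Complex.exp (I * θ))) s = 0) ∧
        δ ≤ |s.re| ∧ 0 < s.im ∧ s.im ≤ T) ?_ (fun S hS => hmain δ T hδ hT _ hu S hS)
    rintro z ⟨h1, h2, h3, h4, h5⟩
    refine ⟨(hZ0 _ _ _).1 h1, ?_, ?_, ?_, ?_⟩
    · rcases h2 with h2 | h2
      · left
        rw [him2]
        exact neg_ne_zero.2 h2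
      · right
        exact (hZd _ _ _).1 h2
    · rw [him2, abs_neg]; exact h3
    · rw [Pool.Agent.Y771.NF.Cnt.rot_im]; exact h4
    · rw [Pool.Agent.Y771.NF.Cnt.rot_im]; exact h5

end

end Pool.Agent.X244.TR
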