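import Pool.Agent.X244.TR.D
import Pool.Agent.Y771.NF.Dn

set_option autoImplicit false

/-! Sums of two translates: newforms. -/

namespace Pool.Agent.X244.TR

open UpperHalfPlane hiding I
open Complex Filter Topology Metric
open scoped ComplexConjugate
open MatrixGroups CongruenceSubgroup
open Pool.Agent
open Pool.Agent.Y771.NF (Lam Xf OffD Cnt.num)

noncomputable section

variable {N : ℕ} [NeZero N] {k : ℕ} {f : CuspForm (Gamma0 N : Subgroup (GL (Fin 2) ℝ)) (k : ℤ)} {ε : ℝ}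

/-- density in the form used here -/
theorem den_of {X G : ℂ → ℂ} {v : ℂ} (h : Hyp X) (hv : v ≠ 0) (hG : ∀ z, G z = v * X (I * z))
    (hoff : ∀ c : ℝ, c < 1 → ∃ C : ℝ, 0 < C ∧ ∀ d T : ℝ, 0 ≤ d → 2 ≤ T →
      (OffD G d T).Finite ∧ (Cnt.num G (OffD G d T) : ℝ) ≤ C * T ^ (1 - c * d) * Real.log T) : Den X := by
  intro c hc
  obtain ⟨C, hC, h1⟩ := hoff c hc
  refine ⟨C, hC, fun δ T hδ hT S hS => ?_⟩
  obtain ⟨h2, h3⟩ := h1 δ T hδ hT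
  have hne : ∃ z, X z ≠ 0 := by
    refine ⟨1, fun h0 => ?_⟩
    have := h.strip 1 h0
    norm_num at this
  refine le_trans ?_ ((Pool.Agent.Y771.NF.Cnt.num_ge hv h.diff hG h2 (S := S) fun s hs => ?_).trans h3)
  · rw [Finset.cast_card]
    exact Finset.sum_le_sum fun s hs => by exact_mod_cast ord_pos h.diff hne (hS s hs).1
  · obtain ⟨a1, a2, a3, a4⟩ := hS s hs
    refine ⟨?_, ?_, ?_, ?_⟩
    · rw [hG, Pool.Agent.Y771.NF.Cnt.rot_inv, a1, mul_zero]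
    · have : (-I * s).im = -s.re := by simp
      rw [this, abs_neg]; exact a2
    · have : (-I * s).re = s.im := by simp
      rw [this]; exact a3
    · have : (-I * s).re = s.im := by simp
      rw [this]; exact a4

theorem newform (hk : 1 ≤ k) (hf : W388.IsNewf N k f ε) (G : ℂ → ℂ) (hG : ∀ z, G z = Lam f ((k : ℂ) / 2 + I * z)) :
    (∀ a : ℝ, 0 < a →
      ((∀ (θ : ℝ) (z : ℂ), Zt G a θ z = 0 → z.im = 0) ↔ ∀ z, G z = 0 → |z.im| ≤ a) ∧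
      ((∀ (θ : ℝ) (z : ℂ), Zt G a θ z = 0 → z.im = 0 ∧ deriv (Zt G a θ) z ≠ 0) ↔ ∀ z, G z = 0 → |z.im| < a)) ∧
    ((∀ z, G z = 0 → z.im = 0) ↔ ∀ a : ℝ, 0 < a → ∀ (θ : ℝ) (z : ℂ), Zt G a θ z = 0 → z.im = 0) ∧
    ∀ a c : ℝ, 0 < a → c < 1 → ∃ C : ℝ, 0 < C ∧ ∀ θ δ T : ℝ, 0 ≤ δ → 2 ≤ T →
      (Exc (Zt G a θ) δ T).Finite ∧
      (Cnt.num (Zt G a θ) (Exc (Zt G a θ) δ T) : ℝ) ≤ C * T ^ (1 - c * Real.sqrt (a ^ 2 + δ ^ 2)) := by
  obtain ⟨u, H, Z, hu, hg, hst, happ, -, -⟩ := Pool.Agent.Y771.NF.all_of hk hf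
  have hC := hg.cg
  have hX : Hyp (Xf f u) := ⟨hC.cf.diff, hC.cf.symm, happ, hst, size_of (by norm_num) hC⟩
  have hGX : ∀ z, G z = u⁻¹ * Xf f u (I * z) := by
    intro z
    rw [hG, Xf, inv_mul_cancel_left₀ hu]
  exact fin hX (den_of hX (inv_ne_zero hu) hGX fun c hc => Pool.Agent.Y771.NF.off hk hf G hG hc) (inv_ne_zero hu) hGX

end

end Pool.Agent.X244.TR
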